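import Pool.Agent.H15.SqB

/-!
# MP_d06690_lc: under CH the answer to Q1 is yes
-/

set_option autoImplicit false

namespace Pool.Agent.Results.MP_d06690_lc.ShiftCH

open Cardinal

/-- Assume the continuum hypothesis. There is a graph on `ω₂²` which has a proper colouring with
`ℵ₁` colours and none with countably many, while every set of vertices of order type less than
`ω₂²` (that is, every set with a strictly increasing map into some `γ < ω₂²`) induces a subgraph
with a proper colouring by countably many colours. -/
theorem result (hCH : (2 : Cardinal.{0}) ^ ℵ₀ = Cardinal.aleph 1) :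
    ∃ G : SimpleGraph (Set.Iio ((Cardinal.aleph.{0} 2).ord ^ 2)),
      Nonempty (G.Coloring (Set.Iio (Cardinal.aleph.{0} 1).ord)) ∧
      IsEmpty (G.Coloring ℕ) ∧
      ∀ S : Set (Set.Iio ((Cardinal.aleph.{0} 2).ord ^ 2)),
        (∃ γ : Ordinal.{0}, γ < (Cardinal.aleph.{0} 2).ord ^ 2 ∧
          ∃ f : S → Ordinal.{0},
            (∀ x y : S, x.1.1 < y.1.1 → f x < f y) ∧ ∀ x : S, f x < γ) →
        Nonempty ((G.induce S).Coloring ℕ) :=
  Pool.Agent.H15.Sq.final hCH

end Pool.Agent.Results.MP_d06690_lc.ShiftCH
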